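import Mathlib

set_option autoImplicit false

namespace Pool.Agent.Results.MP_48b99b_co.All

open Finset Classical

/-- The partition `s` of the vertices is the partition into nonempty colour classes of a FAT colouring. -/
def FAT {V : Type} [Fintype V] (G : SimpleGraph V) (s : Setoid V) : Prop :=
  ∃ (k : ℕ) (c : V → Fin k) (α : ℝ), 0 ≤ α ∧ α ≤ 1 ∧ (∀ u v, s u v ↔ c u = c v) ∧
    ∀ v i, ((univ.filter fun w => G.Adj v w ∧ c w = i).card : ℝ) =
      (if c v = i then 1 - (k - 1) * α else α) * (univ.filter fun w => G.Adj v w).card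

/-- `s` is FAT and no strictly finer partition is FAT. -/
def Irreducible {V : Type} [Fintype V] (G : SimpleGraph V) (s : Setoid V) : Prop :=
  FAT G s ∧ ∀ t, FAT G t → (∀ u v, t u v → s u v) → t = s

/-- Some automorphism of `G` maps the partition `s` onto the partition `t`. -/
def Same {V : Type} (G : SimpleGraph V) (s t : Setoid V) : Prop :=
  ∃ φ : G ≃g G, ∀ u v, s u v ↔ t (φ u) (φ v)

abbrev W (a c : ℕ) := (Fin a × Fin 3) ⊕ (Fin c × Fin 4)

variable {a c : ℕ}

def near : W a c → W a c → Prop
  | .inl u, .inl v => u.1 = v.1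
  | .inr u, .inr v => u.1 = v.1 ∧ u.2 + 2 ≠ v.2
  | _, _ => False

def comp : W a c → Fin a ⊕ Fin c := Sum.map Prod.fst Prod.fst

theorem near_symm {u v : W a c} (h : near u v) : near v u := by
  rcases u with u | u <;> rcases v with v | v <;> simp only [near] at h ⊢
  · exact h.symm
  · exact ⟨h.1.symm, by have := h.2; omega⟩

theorem near_refl (u : W a c) : near u u := by
  rcases u with u | u <;> simp only [near]
  exact ⟨trivial, by omega⟩

def G (a c : ℕ) : SimpleGraph (W a c) where
  Adj u v := ¬ near u v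
  symm := ⟨fun _ _ h k => h (near_symm k)⟩
  loopless := ⟨fun u h => h (near_refl u)⟩

theorem cnt (P : Fin a ⊕ Fin c → Prop) [DecidablePred P] : #(univ.filter fun v : W a c => P (comp v)) =
    3 * #(univ.filter fun i => P (.inl i)) + 4 * #(univ.filter fun j => P (.inr j)) := by
  simp only [card_filter, Fintype.sum_sum_type, Fintype.sum_prod_type, comp, Sum.map_inl, Sum.map_inr,
    Fin.sum_univ_three, Fin.sum_univ_four, sum_add_distrib]
  ring_nf

theorem nl (i : Fin a) (x : Fin 3) (P : W a c → Prop) [DecidablePred P] :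
    #(univ.filter fun w => near (.inl (i, x)) w ∧ P w) = ∑ y, if P (.inl (i, y)) then 1 else 0 := by
  simp only [card_filter, Fintype.sum_sum_type, Fintype.sum_prod_type, near, if_false,
    sum_const_zero, add_zero, ite_and]
  rw [sum_eq_single i (fun j _ h => by simp [h.symm]) (by simp)]
  simp

theorem nr (i : Fin c) (x : Fin 4) (P : W a c → Prop) [DecidablePred P] :
    #(univ.filter fun w => near (.inr (i, x)) w ∧ P w) =
      ∑ y, if x + 2 ≠ y ∧ P (.inr (i, y)) then 1 else 0 := by
  simp only [card_filter, Fintype.sum_sum_type, Fintype.sum_prod_type, near, false_and, if_false,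
    sum_const_zero, zero_add, and_assoc]
  rw [sum_eq_single i (fun j _ h => by simp [h.symm]) (by simp)]
  simp only [true_and]

theorem split (v : W a c) (P : W a c → Prop) [DecidablePred P] : (#(univ.filter fun w => (G a c).Adj v w ∧ P w) : ℝ) =
    #(univ.filter P) - #(univ.filter fun w => near v w ∧ P w) := by
  rw [eq_sub_iff_add_eq, ← Nat.cast_add, ← card_filter_add_card_filter_not (s := univ.filter P) (near v),
    filter_filter, filter_filter, add_comm]
  simp only [and_comm, G]

theorem n3 (v : W a c) : #(univ.filter fun w => near v w ∧ True) = 3 := by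
  rcases v with ⟨i, x⟩ | ⟨i, x⟩
  · rw [nl]; simp
  · rw [nr]; fin_cases x <;> simp [Fin.sum_univ_four]

theorem deg (v : W a c) : (#(univ.filter fun w => (G a c).Adj v w) : ℝ) = 3 * a + 4 * c - 3 := by
  have := split v fun _ => True
  rw [n3] at this
  simp only [and_true] at this
  rw [this]
  simp; ring

def Bal (p : ℕ) (s : Setoid (W a c)) : Prop := ∃ f : Fin a ⊕ Fin c → Bool,
  (∀ u v, s u v ↔ f (comp u) = f (comp v)) ∧
    3 * #(univ.filter fun i => f (.inl i) = true) + 4 * #(univ.filter fun j => f (.inr j) = true) = p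

theorem compl {n : ℕ} (f : Fin n → Bool) :
    #(univ.filter fun i => f i = true) + #(univ.filter fun i => f i = false) = n := by
  have := card_filter_add_card_filter_not (s := univ) fun i => f i = true
  simpa using this

theorem near_comp {u v : W a c} (h : near u v) : comp u = comp v := by
  rcases u with u | u <;> rcases v with v | v <;> simp only [near] at h
  · simp [comp, h]
  · simp [comp, h.1]

theorem B {p : ℕ} (hp : 3 ≤ p) (h : 3 * a + 4 * c = 2 * p) {s : Setoid (W a c)} (hs : Bal p s) :
    FAT (G a c) s ∧ ∃ u v, ¬ s u v := by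
  obtain ⟨f, e, k⟩ := hs
  have q : ∀ t, #(univ.filter fun v : W a c => f (comp v) = t) = p := fun t => by
    have := compl fun i => f (.inl i)
    have := compl fun i => f (.inr i)
    rw [cnt fun i => f i = t]
    cases t <;> omega
  have r : (3 : ℝ) ≤ p := by exact_mod_cast hp
  have r' : (3 : ℝ) * a + 4 * c = 2 * p := by exact_mod_cast h
  refine ⟨⟨2, fun v => finTwoEquiv.symm (f (comp v)), p / (2 * p - 3), div_nonneg (by linarith)
    (by linarith), (div_le_one (by linarith)).mpr (by linarith), by simpa using e, fun v i => ?_⟩, ?_⟩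
  · simp only [Equiv.symm_apply_eq]
    rw [split, deg, q, r']
    have : (2 * p - 3 : ℝ) ≠ 0 := by linarith
    split_ifs with t
    · rw [filter_congr fun w _ => and_congr_right fun w' => iff_true_intro ((congrArg f
        (near_comp w')).symm.trans t), n3]
      rw [show ((2 : ℕ) : ℝ) - 1 = 1 by norm_num, one_mul, sub_mul, div_mul_cancel₀ _ this]
      push_cast; ring
    · rw [filter_false_of_mem fun w _ w' => t ((congrArg f (near_comp w'.1)).trans w'.2)]
      rw [div_mul_cancel₀ _ this]; simp
  · obtain ⟨u, hu⟩ := card_pos.mp (show 0 < #(univ.filter fun v : W a c => f (comp v) = true) by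
      rw [q]; omega)
    obtain ⟨v, hv⟩ := card_pos.mp (show 0 < #(univ.filter fun v : W a c => f (comp v) = false) by
      rw [q]; omega)
    exact ⟨u, v, by rw [e, (mem_filter.mp hu).2, (mem_filter.mp hv).2]; decide⟩

theorem A {p : ℕ} (hp : p.Prime) (h : 3 * a + 4 * c = 2 * p) (i₀ : Fin a) (j₀ : Fin c)
    {s : Setoid (W a c)} (hs : FAT (G a c) s) (hn : ∃ u v, ¬ s u v) : Bal p s := by
  obtain ⟨k, d, α, -, -, e, t⟩ := hs
  simp only [split, deg] at t
  have D : (3 * a + 4 * c - 3 : ℝ) ≠ 0 := by
    have : (1 : ℝ) ≤ a := by exact_mod_cast i₀.pos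
    have : (1 : ℝ) ≤ c := by exact_mod_cast j₀.pos
    linarith
  have tri : ∀ x, d (.inl (i₀, x)) = d (.inl (i₀, 0)) := fun x => by
    by_contra n
    have t1 := t (.inl (i₀, x)) (d (.inl (i₀, 0)))
    have t2 := t (.inl (i₀, 0)) (d (.inl (i₀, 0)))
    rw [nl, if_neg n] at t1
    rw [nl, if_pos rfl, t1] at t2
    have c : ∀ u v i, #(univ.filter fun w => near u w ∧ d w = i) =
        #(univ.filter fun w => near v w ∧ d w = i) := fun u v i => by
      have := t u i
      have := t v i
      simp only [← mul_right_cancel₀ D t2, ite_self] at *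
      exact Nat.cast_injective (R := ℝ) (by linarith)
    have c0 := c (.inl (i₀, 0)) (.inr (j₀, 0)) (d (.inr (j₀, 0)))
    have c1 := c (.inl (i₀, 0)) (.inr (j₀, 1)) (d (.inr (j₀, 0)))
    have c2 := c (.inl (i₀, 0)) (.inr (j₀, 2)) (d (.inr (j₀, 0)))
    have c3 := c (.inl (i₀, 0)) (.inr (j₀, 3)) (d (.inr (j₀, 0)))
    rw [nl, nr, Fin.sum_univ_three, Fin.sum_univ_four] at c0 c1 c2 c3
    simp only [Fin.reduceAdd, ne_eq, Fin.reduceEq, not_true_eq_false, not_false_eq_true, true_and,
      false_and, if_true, if_false] at c0 c1 c2 c3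
    have : ∀ y, d (.inl (i₀, y)) = d (.inr (j₀, 0)) := fun y => by
      fin_cases y <;> simp only [Fin.zero_eta, Fin.mk_one, Fin.reduceFinMk] <;>
        split_ifs at c0 c1 c2 c3 <;> first | assumption | omega
    exact n (by rw [this, this])
  set z := d (.inl (i₀, 0)) with hz
  have s1 : ∀ j ≠ z, (#(univ.filter fun w => d w = j) : ℝ) = α * (3 * a + 4 * c - 3) := fun j hj => by
    have := t (.inl (i₀, 0)) j
    rw [nl, if_neg hj.symm] at this
    simpa [tri, hj.symm] using this
  have m' : ∀ u v, near u v → d v ≠ z → d u = d v := fun u v n hv => by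
    by_contra q
    have := t u (d v)
    rw [if_neg q, s1 _ hv, sub_eq_self, Nat.cast_eq_zero, card_eq_zero, filter_eq_empty_iff] at this
    exact this (mem_univ v) ⟨n, rfl⟩
  have m : ∀ u v, near u v → d u = d v := fun u v n => by
    by_cases hv : d v = z
    · by_cases hu : d u = z
      · rw [hu, hv]
      · exact (m' v u (near_symm n) hu).symm
    · exact m' u v n hv
  obtain ⟨v, hv⟩ : ∃ v, d v ≠ z := by
    by_contra! q
    obtain ⟨u, v, r⟩ := hn
    exact r ((e u v).mpr (by rw [q, q]))
  have s2 := t v z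
  rw [if_neg hv, filter_false_of_mem (p := fun w => near v w ∧ d w = z)
    fun w _ w' => hv ((m _ _ w'.1).trans w'.2), card_empty,
    Nat.cast_zero, sub_zero] at s2
  set σ := #(univ.filter fun w => d w = z) with hσ
  have s3 : ∀ j, #(univ.filter fun w => d w = j) = σ := fun j => by
    by_cases hj : j = z
    · rw [hj]
    · exact_mod_cast (s1 j hj).trans s2.symm
  have tot := card_eq_sum_card_fiberwise (f := d) (s := univ) (t := univ) (by simp)
  simp only [s3, card_univ, Fintype.card_sum, Fintype.card_prod, Fintype.card_fin, sum_const,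
    smul_eq_mul] at tot
  have σ3 : 3 ≤ σ := by
    rw [← n3 (.inl (i₀, 0) : W a c)]
    exact card_le_card fun w hw => mem_filter.mpr ⟨mem_univ _, (m _ _ (mem_filter.mp hw).2.1).symm⟩
  have k2 : 2 ≤ k := by
    have := (d v).2
    have := z.2
    have := Fin.val_ne_of_ne hv
    omega
  have p0 := hp.pos
  obtain ⟨rfl, rfl⟩ : k = 2 ∧ p = σ := by
    rcases (Nat.Prime.dvd_mul hp).mp (show p ∣ k * σ from ⟨2, by omega⟩) with ⟨r, hr⟩ | ⟨r, hr⟩
    · have : r * σ = 2 := Nat.eq_of_mul_eq_mul_left p0 (by rw [← mul_assoc, ← hr]; omega)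
      have := Nat.le_of_dvd two_pos (Dvd.intro_left _ this)
      omega
    · have : k * r = 2 := Nat.eq_of_mul_eq_mul_left p0 (by rw [mul_left_comm, ← hr]; omega)
      have := Nat.le_of_dvd two_pos (Dvd.intro _ this)
      obtain rfl : k = 2 := by omega
      obtain rfl : r = 1 := by omega
      omega
  let f : Fin a ⊕ Fin c → Bool := Sum.elim (fun i => decide (d (.inl (i, 0)) = z))
    fun j => decide (d (.inr (j, 0)) = z)
  have ff : ∀ u, f (comp u) = true ↔ d u = z := by
    rintro (⟨i, x⟩ | ⟨i, x⟩)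
    · rw [m (.inl (i, x)) (.inl (i, 0)) rfl]; simp [f, comp]
    · have : d (.inr (i, x)) = d (.inr (i, 0)) := by
        by_cases hx : x = 2
        · rw [m (.inr (i, x)) (.inr (i, 1)) ⟨rfl, by simp [hx]⟩,
            m (.inr (i, 1)) (.inr (i, 0)) ⟨rfl, by simp⟩]
        · exact m _ _ ⟨rfl, by simp only; omega⟩
      rw [this]; simp [f, comp]
  refine ⟨f, fun u v => ?_, ?_⟩
  · rw [e, Bool.eq_iff_iff, ff, ff]
    omega
  · rw [← cnt fun i => f i = true]
    simp only [ff, hσ]

theorem C {p : ℕ} (hp : p.Prime) (p3 : 3 ≤ p) (h : 3 * a + 4 * c = 2 * p) (i₀ : Fin a) (j₀ : Fin c)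
    {s₀ : Setoid (W a c)} (h₀ : Bal p s₀) (s : Setoid (W a c)) : Irreducible (G a c) s ↔ Bal p s := by
  refine ⟨fun ⟨h1, h2⟩ => A hp h i₀ j₀ h1 ?_, fun hs => ⟨(B p3 h hs).1, fun t ht l => ?_⟩⟩
  · by_contra! q
    exact h2 s₀ (B p3 h h₀).1 (fun u v _ => q u v) ▸ (B p3 h h₀).2 |>.elim fun u ⟨v, k⟩ => k (q u v)
  · obtain ⟨x, y, n⟩ := (B p3 h hs).2
    obtain ⟨g, e', -⟩ := A hp h i₀ j₀ ht ⟨x, y, fun k => n (l _ _ k)⟩
    refine Setoid.ext fun u v => ⟨l u v, fun k => ?_⟩
    by_contra q
    have : ∀ w, s u w := fun w => by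
      by_cases r : t u w
      · exact l _ _ r
      · refine s.trans' k (l _ _ ?_)
        rw [e'] at *
        revert q r
        cases g (comp u) <;> cases g (comp v) <;> cases g (comp w) <;> decide
    exact n (s.trans' (s.symm' (this x)) (this y))

theorem perm {n : ℕ} (f g : Fin n → Bool)
    (h : #(univ.filter fun i => f i = true) = #(univ.filter fun i => g i = true)) :
    ∃ σ : Equiv.Perm (Fin n), ∀ i, g (σ i) = f i := by
  refine ⟨Equiv.ofFiberEquiv fun t => Fintype.equivOfCardEq ?_, Equiv.ofFiberEquiv_map _⟩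
  have := compl f
  have := compl g
  simp only [Fintype.card_subtype]
  cases t <;> omega

theorem twin (v : W a c) : (∃ u ≠ v, ∀ w, (G a c).Adj u w ↔ (G a c).Adj v w) ↔ (comp v).isLeft := by
  rcases v with ⟨i, x⟩ | ⟨i, x⟩
  · refine iff_of_true ⟨.inl (i, x + 1), by simp, ?_⟩ rfl
    rintro (w | w) <;> rfl
  · refine iff_of_false (fun ⟨u, n, h⟩ => ?_) (by simp [comp])
    simp only [G, not_iff_not] at h
    rcases u with u | ⟨j, y⟩
    · exact (h _).mpr (near_refl _)
    · obtain rfl : j = i := ((h _).mpr (near_refl _)).1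
      have := h (.inr (j, x + 2))
      simp only [near, true_and, ne_eq, not_true_eq_false, iff_false, not_not, add_left_inj] at this
      exact n (by rw [this])

theorem result (b : ℕ) (hb : 0 < b) : ∃ (V : Type) (_ : Fintype V) (G : SimpleGraph V), G.Connected ∧
    ∃ r : Fin b → Setoid V, (∀ i, Irreducible G (r i)) ∧ (∀ i j, Same G (r i) (r j) → i = j) ∧
      ∀ s, Irreducible G s → ∃ i, Same G s (r i) := by
  obtain ⟨b, rfl⟩ : ∃ n, b = n + 1 := ⟨b - 1, by omega⟩
  obtain ⟨p, hl, hp, hm⟩ := Nat.forall_exists_prime_gt_and_modEq (24 * b + 30) (q := 4) (a := 3)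
    (by decide) (by decide)
  obtain ⟨c, hc⟩ : ∃ c, p = 12 * b + 11 + 4 * c := ⟨(p - 12 * b - 11) / 4, by
    unfold Nat.ModEq at hm; omega⟩
  let F : Fin (b + 1) → Fin (8 * b + 6) ⊕ Fin (2 * c + 1) → Bool := fun r =>
    Sum.elim (fun i => decide (i < 4 * b + 5 + 4 * r)) fun j => decide (j < c - 3 * r - 1)
  have F1 : ∀ r, #(univ.filter fun i => F r (.inl i) = true) = 4 * b + 5 + 4 * r := fun r => by
    simp only [F, Sum.elim_inl, decide_eq_true_eq, Fin.card_filter_val_lt]; omega
  have F2 : ∀ r, #(univ.filter fun i => F r (.inr i) = true) = c - 3 * r - 1 := fun r => by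
    simp only [F, Sum.elim_inr, decide_eq_true_eq, Fin.card_filter_val_lt]; omega
  have bal : ∀ r, Bal p (Setoid.ker fun v => F r (comp v)) := fun r =>
    ⟨F r, fun _ _ => Iff.rfl, by rw [F1, F2]; omega⟩
  have I := C hp (by omega) (by omega) 0 0 (bal 0)
  refine ⟨W (8 * b + 6) (2 * c + 1), inferInstance, G _ _, ?_, _, fun r => (I _).mpr (bal r),
    fun i j ⟨φ, h⟩ => ?_, fun s hs => ?_⟩
  · refine (SimpleGraph.connected_iff_exists_forall_reachable _).mpr ⟨.inl (0, 0), ?_⟩
    rintro (u | u)
    · exact (SimpleGraph.Adj.reachable (v := .inr (0, 0)) id).trans (SimpleGraph.Adj.reachable id)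
    · exact SimpleGraph.Adj.reachable id
  · have l : ∀ v, (comp (φ v)).isLeft ↔ (comp v).isLeft := fun v => by
      rw [← twin, ← twin, ← φ.toEquiv.exists_congr_right]
      refine exists_congr fun u => and_congr φ.injective.ne_iff ?_
      rw [← φ.toEquiv.forall_congr_right]
      exact forall_congr' fun w => iff_congr φ.map_adj_iff φ.map_adj_iff
    have := card_equiv φ.toEquiv
      (s := univ.filter fun v => (comp v).isLeft ∧ F i (comp v) = true)
      (t := univ.filter fun v => (comp v).isLeft ∧ F j (comp v) = F j (comp (φ (.inl (0, 0)))))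
      fun v => by
        simp only [mem_filter, mem_univ, true_and]
        exact and_congr (l v).symm ((Eq.congr_right (by simp [F, comp])).trans (h v (.inl (0, 0))))
    rw [cnt fun v => v.isLeft ∧ F i v = true, cnt fun v => v.isLeft ∧ F j v = _] at this
    simp only [Sum.isLeft_inl, Sum.isLeft_inr, true_and, Bool.false_eq_true, false_and,
      filter_false, card_empty, F1] at this
    have k := compl fun x => F j (.inl x)
    have k' := F1 j
    ext
    cases e : F j (comp (φ (.inl (0, 0)))) <;> rw [e] at this <;> omega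
  · obtain ⟨f, e, k⟩ := (I s).mp hs
    have main : ∀ f : Fin (8 * b + 6) ⊕ Fin (2 * c + 1) → Bool, (∀ u v, s u v ↔ f (comp u) = f (comp v)) →
        3 * #(univ.filter fun i => f (.inl i) = true) + 4 * #(univ.filter fun j => f (.inr j) = true) = p →
        4 * b + 3 < #(univ.filter fun i => f (.inl i) = true) →
        ∃ i, Same (G _ _) s (Setoid.ker fun v => F i (comp v)) := fun f e k l => by
      have := compl fun i => f (.inl i)
      obtain ⟨r, hr⟩ : ∃ r : Fin (b + 1), #(univ.filter fun i => f (.inl i) = true) = 4 * b + 5 + 4 * r :=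
        ⟨⟨(#(univ.filter fun i => f (.inl i) = true) - 4 * b - 5) / 4, by omega⟩, by simp only; omega⟩
      obtain ⟨σ, hσ⟩ := perm (fun i => f (.inl i)) (fun i => F r (.inl i)) (by rw [F1, hr])
      obtain ⟨τ, hτ⟩ := perm (fun i => f (.inr i)) (fun i => F r (.inr i)) (by rw [F2]; omega)
      have : ∀ u, F r (comp ((σ.prodCongr (Equiv.refl _)).sumCongr (τ.prodCongr (Equiv.refl _)) u)) =
          f (comp u) := by
        rintro (u | u)
        exacts [hσ _, hτ _]
      refine ⟨r, ⟨(σ.prodCongr (Equiv.refl _)).sumCongr (τ.prodCongr (Equiv.refl _)), ?_⟩,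
        fun u v => (e u v).trans (Eq.congr (this u) (this v)).symm⟩
      rintro (u | u) (v | v) <;> simp [G, near]
    by_cases l : 4 * b + 3 < #(univ.filter fun i => f (.inl i) = true)
    · exact main f e k l
    · have := compl fun i => f (.inl i)
      have := compl fun i => f (.inr i)
      refine main (fun x => !f x) (by simpa using e) ?_ ?_ <;> simp only [Bool.not_eq_true'] <;> omega

end Pool.Agent.Results.MP_48b99b_co.All
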